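import Pool.Agent.Helper45.CF.GoalsC
import Pool.Agent.Helper45.CF.Asm

/-!
# Packet CF2-ZCAR: theories vanish on the CAR algebra
-/

set_option autoImplicit false

open scoped ComplexOrder Topology
open TopologicalSpace

namespace Pool.Agent.Helper55.CF2

open Pool.Agent.Helper34.CAR Pool.Agent.Helper39.CR Pool.Agent.Helper45.CF

noncomputable section

/-- matrix units of the matrices over the complex numbers -/
def eu (n : ℕ) (i j : Fin n) : ℂ →ₗ[ℂ] CStarMatrix (Fin n) (Fin n) ℂ where
  toFun c := CStarMatrix.ofMatrix (Matrix.single i j c)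
  map_add' x y := by
    rw [Matrix.single_add]
    rfl
  map_smul' c x := by
    rw [← Matrix.smul_single]
    rfl

theorem eu_apply (n : ℕ) (i j : Fin n) (c : ℂ) :
    eu n i j c = CStarMatrix.ofMatrix (Matrix.single i j c) := rfl

theorem munits_eu (n : ℕ) : MUnits (eu n) where
  mul i j k a b := by
    have h := Matrix.single_mul_single_same (i := i) (j := j) (k := k) (c := a) b
    show CStarMatrix.ofMatrix (Matrix.single i j a * Matrix.single j k b) = _
    rw [h]
    rfl
  mul0 i j k l a b h := by
    have h : Matrix.single i j a * Matrix.single k l b = 0 :=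
      Matrix.single_mul_single_of_ne (c := a) i j k h b
    show CStarMatrix.ofMatrix (Matrix.single i j a * Matrix.single k l b) = _
    rw [h]
    rfl
  star i j a := by
    have h := Matrix.conjTranspose_single i j a
    show CStarMatrix.ofMatrix ((Matrix.single i j a).conjTranspose) = _
    rw [h]
    rfl
  inj i j a h := by
    have h1 : (Matrix.single i j a : Matrix (Fin n) (Fin n) ℂ) = 0 := h
    have h2 := congrFun (congrFun h1 i) j
    simpa using h2
  span x := by
    refine ⟨fun i j => CStarMatrix.ofMatrix.symm x i j, ?_⟩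
    have h := Matrix.matrix_eq_sum_single (CStarMatrix.ofMatrix.symm x)
    apply CStarMatrix.ofMatrix.symm.injective
    refine h.trans ?_
    rfl

theorem zero_mat (T : Theory) (n : ℕ) (hn : 0 < n)
    [SeparableSpace (CStarMatrix (Fin n) (Fin n) ℂ)] :
    T.Zero (CStarMatrix (Fin n) (Fin n) ℂ) := by
  intro i x
  let j0 : Fin n := ⟨0, hn⟩
  let h : ℂ →⋆ₙₐ[ℂ] CStarMatrix (Fin n) (Fin n) ℂ :=
    { toFun := eu n j0 j0
      map_smul' := fun c x => by
        rw [map_smul]
        rfl
      map_zero' := map_zero _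
      map_add' := map_add _
      map_mul' := fun a b => ((munits_eu n).mul j0 j0 j0 a b).symm
      map_star' := fun a => ((munits_eu n).star j0 j0 a).symm }
  have hb := T.stable i ℂ (CStarMatrix (Fin n) (Fin n) ℂ) (Fin n) (eu n) (munits_eu n) j0 h
    fun _ => rfl
  apply hb.1
  rw [T.point i (T.map i h x), map_zero]

/-- factoring through an injective homomorphism -/
theorem lift_inj {B C A : Type} [CStarAlgebra B] [CStarAlgebra C] [CStarAlgebra A]
    (f : B →⋆ₐ[ℂ] A) (g : C →⋆ₐ[ℂ] A) (hf : Function.Injective f)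
    (hr : Set.range g ⊆ Set.range f) : ∃ h : C →⋆ₙₐ[ℂ] B, ∀ c, f (h c) = g c := by
  choose h hh using fun c => hr ⟨c, rfl⟩
  refine ⟨{ toFun := h, map_smul' := ?_, map_zero' := ?_, map_add' := ?_, map_mul' := ?_,
            map_star' := ?_ }, hh⟩
  · intro c x
    apply hf
    rw [hh, MonoidHom.id_apply, map_smul, map_smul, hh]
  · apply hf
    rw [hh, map_zero, map_zero]
  · intro x y
    apply hf
    rw [hh, map_add, map_add, hh, hh]
  · intro x y
    apply hf
    rw [hh, map_mul, map_mul, hh, hh]
  · intro x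
    apply hf
    rw [hh, map_star, map_star, hh]

theorem t : S_ZCAR := by
  intro T M _ _ hM
  obtain ⟨e, j, he, hj, hr, hd⟩ := hM
  have hsep : ∀ k, SeparableSpace (CStarMatrix (Fin (2 ^ e k)) (Fin (2 ^ e k)) ℂ) := fun k =>
    sep_of_inj (j k : _ →⋆ₙₐ[ℂ] M) (hj k)
  choose c hc using fun k => lift_inj (j (k + 1)) (j k) (hj (k + 1)) (hr k)
  refine zero_union T M (fun k => CStarMatrix (Fin (2 ^ e k)) (Fin (2 ^ e k)) ℂ) c
    (fun k => (j k : _ →⋆ₙₐ[ℂ] M)) hj (fun k b => hc k b) hd fun k => zero_mat T _ (by positivity)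

end

end Pool.Agent.Helper55.CF2
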